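import Mathlib
import Pool.Agent.Lib.MP_c72610_co.Example

set_option autoImplicit false

open Classical

namespace Pool.Agent.Results.MP_c72610_co.Counterexample

/-- Total weight of the sets `A` in the family `P` that contain `U`. -/
noncomputable def wsum {n : ℕ} (P : Set (Fin n) → Prop) (z : Fin n → ℝ) (U : Finset (Fin n)) : ℝ :=
  ∑ A : Finset (Fin n), if P (A : Set (Fin n)) ∧ U ⊆ A then ∏ x ∈ A, z x else 0

/-- Weighted pairwise negative correlation of the family `P`. -/
def NegCorr {n : ℕ} (P : Set (Fin n) → Prop) : Prop :=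
  ∀ z : Fin n → ℝ, (∀ x, 0 < z x) → ∀ e f : Fin n, e ≠ f →
    wsum P z {e, f} * wsum P z ∅ ≤ wsum P z {e} * wsum P z {f}

open Pool.Agent.Lib.MP_c72610_co.Gr in
theorem conn_iff {ι : Type} {r : ℕ} (s t : ι → Fin (r + 1)) (A : Set ι) :
    Conn s t A ↔ (SimpleGraph.fromEdgeSet ((fun g => s(s g, t g)) '' A)).Connected := by
  constructor
  · intro h
    rw [SimpleGraph.connected_iff_exists_forall_reachable]
    refine ⟨0, fun x => ?_⟩
    have := h (fun y => if (SimpleGraph.fromEdgeSet ((fun g => s(s g, t g)) '' A)).Reachable 0 y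
      then 0 else 1) (fun g hg => ?_) x
    · by_contra hx
      simp [hx] at this
    · by_cases hst : s g = t g
      · rw [hst]
      · have hadj : (SimpleGraph.fromEdgeSet ((fun g => s(s g, t g)) '' A)).Adj (s g) (t g) :=
          (SimpleGraph.fromEdgeSet_adj _).2 ⟨⟨g, hg, rfl⟩, hst⟩
        exact if_congr ⟨fun h => h.trans hadj.reachable, fun h => h.trans hadj.symm.reachable⟩
          rfl rfl
  · intro h φ hφ x
    obtain ⟨w⟩ := h.preconnected x 0
    generalize (0 : Fin (r + 1)) = y at w
    induction w with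
    | nil => rfl
    | cons hadj _ ih =>
      obtain ⟨⟨g, hg, he⟩, -⟩ := (SimpleGraph.fromEdgeSet_adj _).1 hadj
      rw [← ih]
      rcases Sym2.eq_iff.1 he with ⟨h1, h2⟩ | ⟨h1, h2⟩
      · rw [← h1, ← h2, hφ g hg]
      · rw [← h1, ← h2, hφ g hg]

open Pool.Agent.Lib.MP_c72610_co.Gr in
theorem result : ∃ (M : Matroid (Fin 17)) (s t : Fin 17 → Fin 8),
    M.E = Set.univ ∧ (∀ g, s g ≠ t g) ∧ (Function.Injective fun g => s(s g, t g)) ∧
    (∀ A, M.Spanning A ↔ (SimpleGraph.fromEdgeSet ((fun g => s(s g, t g)) '' A)).Connected) ∧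
    NegCorr M.IsBase ∧ ¬ NegCorr M.Spanning := by
  obtain ⟨M, hE, hS, hR⟩ := exists_graphic _ _ ex_conn
  refine ⟨M, exS, exT, hE, by decide, by decide, fun A => (hS A).trans (conn_iff _ _ A),
    fun z hz e f hef => ?_, fun h => ?_⟩
  · simp only [wsum, Finset.singleton_subset_iff, Finset.insert_subset_iff, Finset.empty_subset,
      and_true]
    convert hR z hz e f hef
  · have h1 := h _ ex_weight_pos 0 1 (by decide)
    simp only [wsum, Finset.singleton_subset_iff, Finset.insert_subset_iff, Finset.empty_subset,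
      and_true, hS] at h1
    refine absurd h1 (not_le.2 ?_)
    convert ex_pos

end Pool.Agent.Results.MP_c72610_co.Counterexample
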