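import Pool.Agent.Lib.MP_c72610_co.FrameDual

set_option autoImplicit false

namespace Pool.Agent.Results.MP_c72610_co.FramePairs

open Finset Classical Pool.Agent.Lib.MP_c72610_co.Poly

/-- Let M be a finite matroid such that M or its dual is a restriction of a matroid N with a frame
B (a base such that every element of M is spanned by two elements of B), and let e, f be distinct
elements of M in B. Then e and f are negatively correlated for the weights
s ^ nullity(A) * t ^ corank(A) * z(A) on subsets A of the ground set, whenever s, t are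
nonnegative and s * t is at most 1. -/
theorem result :
    ∀ (α : Type) [Fintype α] [DecidableEq α] (M N : Matroid α) (B : Set α),
      (M.IsRestriction N ∨ M.dual.IsRestriction N) → N.IsBase B →
      (∀ g ∈ M.E, ∃ u ∈ B, ∃ v ∈ B, g ∈ N.closure {u, v}) →
      ∀ e f : α, e ∈ M.E → f ∈ M.E → e ∈ B → f ∈ B → e ≠ f →
      ∀ z : α → ℝ, (∀ x, 0 < z x) → ∀ s t : ℝ, 0 ≤ s → 0 ≤ t → s * t ≤ 1 →
      ∀ w : Finset α → ℝ,
        (∀ A : Finset α, w A = if (A : Set α) ⊆ M.E then
          s ^ (A.card - (M.eRk (A : Set α)).toNat) *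
            t ^ (M.eRank.toNat - (M.eRk (A : Set α)).toNat) * ∏ x ∈ A, z x else 0) →
        (∑ A : Finset α, if e ∈ A ∧ f ∈ A then w A else 0) * (∑ A : Finset α, w A) ≤
          (∑ A : Finset α, if e ∈ A then w A else 0) *
            (∑ A : Finset α, if f ∈ A then w A else 0) := by
  intro α _ _ M N B hMN hB hfr e f heM hfM heB hfB hef z hz s t hs ht hst w hw
  have : w = wt M s t z := funext fun A => by rw [hw, wt, rk, rk, M.eRk_ground]
  subst this
  rcases hMN with h | h
  · exact ncor_restrict h hB hfr heB hfB heM hfM hef (fun g => (hz g).le) hs ht hst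
  · exact ncor_dual heM hfM hz (ncor_restrict h hB hfr heB hfB heM hfM hef
      (fun g => (inv_pos.2 (hz g)).le) ht hs (by rwa [mul_comm]))

/-- The cases (s, t) = (0, 1) and (1, 0): the inequalities of the problem for independent sets and
for spanning sets, written as in the frozen statement. -/
theorem correlated_pair {α : Type} [Fintype α] [DecidableEq α] (M N : Matroid α) (B : Set α)
    (hMN : M.IsRestriction N ∨ M.dual.IsRestriction N) (hB : N.IsBase B)
    (hfr : ∀ g ∈ M.E, ∃ u ∈ B, ∃ v ∈ B, g ∈ N.closure {u, v}) (e f : α) (heM : e ∈ M.E)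
    (hfM : f ∈ M.E) (heB : e ∈ B) (hfB : f ∈ B) (hef : e ≠ f) (z : α → ℝ) (hz : ∀ x, 0 < z x) :
    ((∑ A : Finset α, if M.Indep (A : Set α) ∧ e ∈ A ∧ f ∈ A then ∏ x ∈ A, z x else 0) *
        (∑ A : Finset α, if M.Indep (A : Set α) then ∏ x ∈ A, z x else 0) ≤
      (∑ A : Finset α, if M.Indep (A : Set α) ∧ e ∈ A then ∏ x ∈ A, z x else 0) *
        (∑ A : Finset α, if M.Indep (A : Set α) ∧ f ∈ A then ∏ x ∈ A, z x else 0)) ∧
    ((∑ A : Finset α, if M.Spanning (A : Set α) ∧ e ∈ A ∧ f ∈ A then ∏ x ∈ A, z x else 0) *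
        (∑ A : Finset α, if M.Spanning (A : Set α) then ∏ x ∈ A, z x else 0) ≤
      (∑ A : Finset α, if M.Spanning (A : Set α) ∧ e ∈ A then ∏ x ∈ A, z x else 0) *
        (∑ A : Finset α, if M.Spanning (A : Set α) ∧ f ∈ A then ∏ x ∈ A, z x else 0)) := by
  constructor
  · have := result α M N B hMN hB hfr e f heM hfM heB hfB hef z hz 0 1 le_rfl zero_le_one (by simp)
      (fun A => if M.Indep (A : Set α) then ∏ x ∈ A, z x else 0) fun A => by
        have a1 := rk_le_ncard M (A : Set α)
        have a2 := indep_iff_rk M (A : Set α)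
        rw [Set.ncard_coe_finset] at a1 a2
        unfold rk at a1 a2
        by_cases h : M.Indep (A : Set α)
        · rw [if_pos h, if_pos h.subset_ground, a2.1 h]; simp
        · rw [if_neg h, zero_pow (by have := mt a2.2 h; omega)]; simp
    simpa only [← ite_and, and_comm (b := M.Indep _)] using this
  · have := result α M N B hMN hB hfr e f heM hfM heB hfB hef z hz 1 0 zero_le_one le_rfl (by simp)
      (fun A => if M.Spanning (A : Set α) then ∏ x ∈ A, z x else 0) fun A => by
        have : M.Finite := ⟨Set.toFinite _⟩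
        have a2 : M.Spanning (A : Set α) ↔ rk M M.E ≤ rk M A ∧ (A : Set α) ⊆ M.E := by
          rw [Matroid.spanning_iff_eRk_le', ← Nat.cast_le (α := ℕ∞), rk_coe, rk_coe, M.eRk_ground]
        unfold rk at a2
        rw [M.eRk_ground] at a2
        by_cases h : M.Spanning (A : Set α)
        · rw [if_pos h, if_pos h.subset_ground, Nat.sub_eq_zero_of_le (a2.1 h).1]; simp
        · rw [if_neg h]
          split_ifs with h'
          · rw [zero_pow (Nat.sub_ne_zero_of_lt (not_le.1 fun k => h (a2.2 ⟨k, h'⟩)))]; simp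
          · rfl
    simpa only [← ite_and, and_comm (b := M.Spanning _)] using this

open SimpleGraph in
/-- Adjacent edges of a finite graph satisfy the hypotheses: N is the cycle matroid of the complete
graph, B the star at the common vertex. Random-cluster weights q ^ (number of components). -/
theorem graph_random_cluster {V : Type} [Fintype V] [DecidableEq V] (G : SimpleGraph V) (a b c : V)
    (hb : G.Adj a b) (hc : G.Adj a c) (hbc : b ≠ c) (z : Sym2 V → ℝ) (hz : ∀ x, 0 < z x) (q : ℝ)
    (h0 : 0 < q) (h1 : q ≤ 1) (w : Finset (Sym2 V) → ℝ)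
    (hw : ∀ A : Finset (Sym2 V), w A = if (A : Set (Sym2 V)) ⊆ G.edgeSet then
      q ^ Nat.card (fromEdgeSet (A : Set (Sym2 V))).ConnectedComponent * ∏ x ∈ A, z x else 0) :
    (∑ A : Finset (Sym2 V), if s(a, b) ∈ A ∧ s(a, c) ∈ A then w A else 0) *
        (∑ A : Finset (Sym2 V), w A) ≤
      (∑ A : Finset (Sym2 V), if s(a, b) ∈ A then w A else 0) *
        (∑ A : Finset (Sym2 V), if s(a, c) ∈ A then w A else 0) := by
  have hG : G.edgeSet ⊆ (⊤ : SimpleGraph V).edgeSet := edgeSet_mono le_top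
  have h : NCor s(a, b) s(a, c) (wt ((cyc V).restrict G.edgeSet) 1 q z) :=
    result (Sym2 V) ((cyc V).restrict G.edgeSet) (cyc V) (star a) (Or.inl ⟨_, hG, rfl⟩)
      (star_base a) (fun g hg => star_frame a (hG hg)) _ _ hb hc ⟨b, hb.ne', rfl⟩ ⟨c, hc.ne', rfl⟩
      (fun h => hbc (Sym2.congr_right.1 h)) z hz 1 q zero_le_one h0.le (by simpa using h1) _
      fun A => by rw [wt, rk, rk, Matroid.eRk_ground]
  refine h.of_smul (inv_pos.2 (pow_pos h0 (kc G.edgeSet))) fun A => ?_
  rw [hw, wt, Matroid.restrict_ground_eq]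
  split_ifs with hA
  · have a1 := cyc_rk hG
    have a2 := cyc_rk (hA.trans hG)
    have a3 := kc_anti hA
    have a4 : rk ((cyc V).restrict G.edgeSet) A = rk (cyc V) A := by
      rw [rk, rk, Matroid.restrict_eRk_eq _ hA]
    have a5 : rk ((cyc V).restrict G.edgeSet) G.edgeSet = rk (cyc V) G.edgeSet := by
      rw [rk, rk, Matroid.restrict_eRk_eq _ Set.Subset.rfl]
    change _ = _ * (q ^ kc (A : Set (Sym2 V)) * _)
    rw [a4, a5, show kc (A : Set (Sym2 V)) =
      kc G.edgeSet + (rk (cyc V) G.edgeSet - rk (cyc V) A) by omega, pow_add, one_pow]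
    have := (pow_pos h0 (kc G.edgeSet)).ne'
    field_simp
  · simp

open SimpleGraph in
/-- Adjacent edges of a finite graph: weighted forests and weighted connected spanning
subgraphs. -/
theorem graph_forests_connected {V : Type} [Fintype V] [DecidableEq V] (G : SimpleGraph V)
    (a b c : V) (hb : G.Adj a b) (hc : G.Adj a c) (hbc : b ≠ c) (z : Sym2 V → ℝ)
    (hz : ∀ x, 0 < z x) (p : Finset (Sym2 V) → Prop)
    (hp : (∀ A : Finset (Sym2 V), p A ↔ (A : Set (Sym2 V)) ⊆ G.edgeSet ∧
        (fromEdgeSet (A : Set (Sym2 V))).IsAcyclic) ∨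
      (∀ A : Finset (Sym2 V), p A ↔ (A : Set (Sym2 V)) ⊆ G.edgeSet ∧
        (fromEdgeSet (A : Set (Sym2 V))).Connected)) :
    (∑ A : Finset (Sym2 V), if p A ∧ s(a, b) ∈ A ∧ s(a, c) ∈ A then ∏ x ∈ A, z x else 0) *
        (∑ A : Finset (Sym2 V), if p A then ∏ x ∈ A, z x else 0) ≤
      (∑ A : Finset (Sym2 V), if p A ∧ s(a, b) ∈ A then ∏ x ∈ A, z x else 0) *
        (∑ A : Finset (Sym2 V), if p A ∧ s(a, c) ∈ A then ∏ x ∈ A, z x else 0) := by
  have hG : G.edgeSet ⊆ (⊤ : SimpleGraph V).edgeSet := edgeSet_mono le_top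
  have h := correlated_pair ((cyc V).restrict G.edgeSet) (cyc V) (star a) (Or.inl ⟨_, hG, rfl⟩)
    (star_base a) (fun g hg => star_frame a (hG hg)) _ _ hb hc ⟨b, hb.ne', rfl⟩ ⟨c, hc.ne', rfl⟩
    (fun h => hbc (Sym2.congr_right.1 h)) z hz
  have : Nonempty V := ⟨a⟩
  rcases hp with hp | hp
  · have k : ∀ A : Finset (Sym2 V), ((cyc V).restrict G.edgeSet).Indep A ↔ p A := fun A => by
      rw [Matroid.restrict_indep_iff, cyc_indep, hp]
      exact ⟨fun h => ⟨h.2, h.1.2⟩, fun h => ⟨⟨h.1.trans hG, h.2⟩, h.1⟩⟩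
    simpa only [k] using h.1
  by_cases hcon : kc G.edgeSet = 1
  · have k : ∀ A : Finset (Sym2 V), ((cyc V).restrict G.edgeSet).Spanning A ↔ p A := fun A => by
      have : ((cyc V).restrict G.edgeSet).Finite := ⟨Set.toFinite _⟩
      rw [Matroid.spanning_iff_eRk_le', hp, and_comm, Matroid.restrict_ground_eq]
      refine and_congr_right fun hA => ?_
      have a1 := cyc_rk hG
      have a2 := cyc_rk (hA.trans hG)
      have a3 := kc_anti hA
      rw [Matroid.eRank_restrict, Matroid.restrict_eRk_eq _ hA, ← rk_coe, ← rk_coe, Nat.cast_le,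
        ← kc_eq_one]
      omega
    simpa only [k] using h.2
  · have k : ∀ A : Finset (Sym2 V), ¬ p A := fun A hA => by
      obtain ⟨h1, h2⟩ := (hp A).1 hA
      exact hcon ((kc_eq_one _).2 (h2.mono (fromEdgeSet_mono h1)))
    simp [k]

end Pool.Agent.Results.MP_c72610_co.FramePairs
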