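import Pool.Agent.Lib.MP_c72610_co.Down

set_option autoImplicit false

namespace Pool.Agent.Results.MP_c72610_co.LaminarBounds

open Finset Classical Pool.Agent.Lib.MP_c72610_co

/-- Every finite matroid whose bases are cut out by lower and upper cardinality bounds on the
members of a laminar family is correlated (independence-correlated and spanning-correlated). -/
theorem result :
    ∀ (n : ℕ) (M : Matroid (Fin n)) (L : Finset (Finset (Fin n))) (lo hi : Finset (Fin n) → ℕ),
      (∀ A ∈ L, ∀ A' ∈ L, A ⊆ A' ∨ A' ⊆ A ∨ Disjoint A A') →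
      (∀ B : Finset (Fin n), M.IsBase (B : Set (Fin n)) ↔
        ∀ A ∈ L, lo A ≤ (B ∩ A).card ∧ (B ∩ A).card ≤ hi A) →
      (∀ z : Fin n → ℝ, (∀ x, 0 < z x) → ∀ e f : Fin n, e ≠ f →
        (∑ A : Finset (Fin n),
            if M.Indep (A : Set (Fin n)) ∧ e ∈ A ∧ f ∈ A then ∏ x ∈ A, z x else 0) *
          (∑ A : Finset (Fin n), if M.Indep (A : Set (Fin n)) then ∏ x ∈ A, z x else 0) ≤
        (∑ A : Finset (Fin n), if M.Indep (A : Set (Fin n)) ∧ e ∈ A then ∏ x ∈ A, z x else 0) *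
          (∑ A : Finset (Fin n),
            if M.Indep (A : Set (Fin n)) ∧ f ∈ A then ∏ x ∈ A, z x else 0)) ∧
      (∀ z : Fin n → ℝ, (∀ x, 0 < z x) → ∀ e f : Fin n, e ≠ f →
        (∑ A : Finset (Fin n),
            if M.Spanning (A : Set (Fin n)) ∧ e ∈ A ∧ f ∈ A then ∏ x ∈ A, z x else 0) *
          (∑ A : Finset (Fin n), if M.Spanning (A : Set (Fin n)) then ∏ x ∈ A, z x else 0) ≤
        (∑ A : Finset (Fin n), if M.Spanning (A : Set (Fin n)) ∧ e ∈ A then ∏ x ∈ A, z x else 0) *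
          (∑ A : Finset (Fin n),
            if M.Spanning (A : Set (Fin n)) ∧ f ∈ A then ∏ x ∈ A, z x else 0)) := by
  intro n M L lo hi hL hB
  obtain ⟨B0, hB0⟩ := M.exists_isBase
  lift B0 to Finset (Fin n) using Set.toFinite _
  refine ⟨fun z hz e f hef => ?_, fun z hz e f hef => ?_⟩
  · refine (down_nc lo hi L hL B0 ((hB B0).1 hB0) ∅ z (fun x => (hz x).le) hef).out fun X => ?_
    rw [Matroid.indep_iff, and_iff_left (empty_subset _)]
    refine ⟨fun ⟨B, h1, h2⟩ => ?_, fun ⟨B, h1, h2⟩ => ⟨B, (hB B).2 h2, coe_subset.2 h1⟩⟩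
    lift B to Finset (Fin n) using Set.toFinite _
    exact ⟨B, coe_subset.1 h2, (hB B).1 h1⟩
  · refine (up_nc lo hi L hL B0 ((hB B0).1 hB0) M.E.toFinset z hz hef).out fun X => ?_
    rw [Matroid.spanning_iff_exists_isBase_subset', Set.subset_toFinset]
    refine and_congr_left fun _ =>
      ⟨fun ⟨B, h1, h2⟩ => ?_, fun ⟨B, h1, h2⟩ => ⟨B, (hB B).2 h2, coe_subset.2 h1⟩⟩
    lift B to Finset (Fin n) using Set.toFinite _
    exact ⟨B, coe_subset.1 h2, (hB B).1 h1⟩

/-- Lattice path matroids belong to the class: P and Q are the sets of north steps of the lower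
and the upper bounding path, and the bases are the north-step sets of the paths between them. -/
theorem latticePath_mem (n : ℕ) (M : Matroid (Fin n)) (P Q : Finset (Fin n))
    (h : ∀ B : Finset (Fin n), M.IsBase (B : Set (Fin n)) ↔
      ∀ i : Fin n, (P ∩ Iic i).card ≤ (B ∩ Iic i).card ∧ (B ∩ Iic i).card ≤ (Q ∩ Iic i).card) :
    ∃ (L : Finset (Finset (Fin n))) (lo hi : Finset (Fin n) → ℕ),
      (∀ A ∈ L, ∀ A' ∈ L, A ⊆ A' ∨ A' ⊆ A ∨ Disjoint A A') ∧
      ∀ B : Finset (Fin n), M.IsBase (B : Set (Fin n)) ↔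
        ∀ A ∈ L, lo A ≤ (B ∩ A).card ∧ (B ∩ A).card ≤ hi A := by
  refine ⟨univ.image Iic, fun A => (P ∩ A).card, fun A => (Q ∩ A).card, ?_, fun B => ?_⟩
  · simp only [forall_mem_image, mem_univ, true_imp_iff, Iic_subset_Iic]
    intro i j
    rcases le_total i j with h | h
    · exact Or.inl h
    · exact Or.inr (Or.inl h)
  · simp only [h, forall_mem_image, mem_univ, true_imp_iff]

/-- Laminar matroids belong to the class: the independent sets are the sets meeting each member A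
of a laminar family in at most c A elements. -/
theorem laminar_mem (n : ℕ) (M : Matroid (Fin n)) (L : Finset (Finset (Fin n)))
    (c : Finset (Fin n) → ℕ) (hL : ∀ A ∈ L, ∀ A' ∈ L, A ⊆ A' ∨ A' ⊆ A ∨ Disjoint A A')
    (h : ∀ I : Finset (Fin n), M.Indep (I : Set (Fin n)) ↔ ∀ A ∈ L, (I ∩ A).card ≤ c A) :
    ∃ (L : Finset (Finset (Fin n))) (lo hi : Finset (Fin n) → ℕ),
      (∀ A ∈ L, ∀ A' ∈ L, A ⊆ A' ∨ A' ⊆ A ∨ Disjoint A A') ∧
      ∀ B : Finset (Fin n), M.IsBase (B : Set (Fin n)) ↔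
        ∀ A ∈ L, lo A ≤ (B ∩ A).card ∧ (B ∩ A).card ≤ hi A := by
  obtain ⟨B0, hB0⟩ := M.exists_isBase
  lift B0 to Finset (Fin n) using Set.toFinite _
  have hc : ∀ B : Finset (Fin n), M.IsBase (B : Set (Fin n)) → B.card = B0.card := fun B hB => by
    simpa using hB.ncard_eq_ncard_of_isBase hB0
  refine ⟨insert univ L, fun A => if A = univ then B0.card else 0,
    fun A => if A ∈ L then c A else n, ?_, fun B => ⟨fun hB A hA => ⟨?_, ?_⟩, fun hB => ?_⟩⟩
  · simp only [forall_mem_insert, subset_univ, true_or, or_true, implies_true, true_and]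
    exact hL
  · dsimp only
    split_ifs with h1
    · rw [h1, inter_univ, hc B hB]
    · exact Nat.zero_le _
  · dsimp only
    split_ifs with h1
    · exact (h B).1 hB.indep A h1
    · simpa using card_le_univ (B ∩ A)
  · have h1 := (hB univ (mem_insert_self _ _)).1
    simp only [if_true, inter_univ] at h1
    have h2 : M.Indep (B : Set (Fin n)) := (h B).2 fun A hA => by
      simpa [hA] using (hB A (mem_insert_of_mem hA)).2
    obtain ⟨B', h3, h4⟩ := h2.exists_isBase_superset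
    lift B' to Finset (Fin n) using Set.toFinite _
    rwa [eq_of_subset_of_card_le (coe_subset.1 h4) (by rw [hc B' h3]; exact h1)]

/-- The class is closed under duality. -/
theorem dual_mem (n : ℕ) (M : Matroid (Fin n)) (hE : M.E = Set.univ)
    (L : Finset (Finset (Fin n))) (lo hi : Finset (Fin n) → ℕ)
    (h : ∀ B : Finset (Fin n), M.IsBase (B : Set (Fin n)) ↔
      ∀ A ∈ L, lo A ≤ (B ∩ A).card ∧ (B ∩ A).card ≤ hi A) :
    ∀ B : Finset (Fin n), M✶.IsBase (B : Set (Fin n)) ↔
      ∀ A ∈ L, A.card - hi A ≤ (B ∩ A).card ∧ (B ∩ A).card ≤ A.card - lo A := by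
  obtain ⟨B0, hB0⟩ := M.exists_isBase
  lift B0 to Finset (Fin n) using Set.toFinite _
  intro B
  rw [Matroid.dual_isBase_iff', hE, and_iff_left (Set.subset_univ _), ← Set.compl_eq_univ_sdiff,
    ← coe_compl, h]
  refine forall₂_congr fun A hA => ?_
  have h1 : (Bᶜ ∩ A).card + (B ∩ A).card = A.card := by
    rw [inter_comm, ← sdiff_eq_inter_compl, inter_comm, card_sdiff_add_card_inter]
  have h2 := ((h B0).1 hB0 A hA).1
  have h3 := card_le_card (inter_subset_right : B0 ∩ A ⊆ A)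
  omega

end Pool.Agent.Results.MP_c72610_co.LaminarBounds
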