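import Pool.Agent.Lib.MP_c72610_co.Geom

set_option autoImplicit false

namespace Pool.Agent.Results.MP_c72610_co.RankThreeSpanning

open Finset Classical Pool.Agent.Lib.MP_c72610_co

lemma core {α : Type*} [Fintype α] [DecidableEq α] (M : Matroid α) (hr : M.eRank ≤ 3)
    (z : α → ℝ) (hz : ∀ x, 0 ≤ z x) {e f : α} (U : Finset α)
    (hU : ∀ x, x ∈ U ↔ x ≠ e ∧ x ≠ f) :
    gs z U (fun X => sI M (insert e (insert f X))) * gs z U (sI M) ≤
      gs z U (fun X => sI M (insert e X)) * gs z U (fun X => sI M (insert f X)) := by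
  have nn : ∀ F : Finset α → Finset α, 0 ≤ gs z U (fun X => sI M (F X)) := fun F =>
    gs_nonneg z hz U fun X => rind_nonneg _
  by_cases hE : e ∈ M.E ∧ f ∈ M.E
  swap
  · have : gs z U (fun X => sI M (insert e (insert f X))) = 0 := by
      refine sum_eq_zero fun X _ => ?_
      dsimp only [sI]
      rw [rind_neg, zero_mul]
      exact fun h => hE ⟨h.subset_ground (by simp), h.subset_ground (by simp)⟩
    rw [this, zero_mul]
    exact mul_nonneg (nn _) (nn _)
  obtain ⟨heE, hfE⟩ := hE
  have m1 : ∀ {a : α} {Z : Finset α}, a ∈ M.E → M.Spanning (Z : Set α) →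
      M.Spanning ((insert a Z : Finset α) : Set α) := by
    intro a Z ha hZ
    rw [coe_insert]
    exact hZ.superset (Set.subset_insert _ _) (Set.insert_subset ha hZ.subset_ground)
  have m3 : ∀ {a b : α} {Z : Finset α}, a ∈ M.closure {b} →
      M.Spanning ((insert a (insert b Z) : Finset α) : Set α) →
      M.Spanning ((insert b Z : Finset α) : Set α) := by
    intro a b Z hab h
    rw [coe_insert] at h
    refine ⟨?_, (Set.subset_insert _ _).trans h.subset_ground⟩
    rw [← h.closure_eq, Matroid.closure_insert_eq_of_mem_closure]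
    exact M.closure_subset_closure (by simp) hab
  by_cases he : e ∈ M.closure {f}
  · rw [mul_comm]
    exact mul_le_mul (gs_mono z hz U fun X _ => rind_mono (m1 heE))
      (gs_mono z hz U fun X _ => rind_mono (m3 he)) (nn _) (nn _)
  by_cases hf : f ∈ M.closure {e}
  · exact mul_le_mul
      (gs_mono z hz U fun X _ => rind_mono (fun h => m3 hf (by rwa [insert_comm])))
      (gs_mono z hz U fun X _ => rind_mono (m1 hfE)) (nn id) (nn _)
  have key := nondeg M hr z hz heE hfE he hf (U.filter fun x => x ∈ M.E)
    (fun x => by rw [mem_filter, hU]; tauto)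
  have r : ∀ F : Finset α → Finset α, (∀ X, X ⊆ F X) →
      gs z U (fun X => sI M (F X)) = gs z (U.filter fun x => x ∈ M.E) (fun X => sI M (F X)) := by
    intro F hF
    refine gs_restrict z (filter_subset _ _) _ fun X hX h => rind_neg fun h' => h fun x hx => ?_
    exact mem_filter.2 ⟨hX hx, h'.subset_ground (hF X hx)⟩
  rw [r (fun X => insert e (insert f X)) (fun X => (subset_insert _ _).trans (subset_insert _ _)),
    r (fun X => insert e X) (fun X => subset_insert _ _),
    r (fun X => insert f X) (fun X => subset_insert _ _)]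
  have r0 := r id (fun X => Subset.rfl)
  simp only [id] at r0
  rw [show gs z U (sI M) = gs z (U.filter fun x => x ∈ M.E) (sI M) from r0]
  exact key

/-- Every finite matroid of rank at most three is spanning-correlated. -/
theorem result :
    ∀ (n : ℕ) (M : Matroid (Fin n)), M.eRank ≤ 3 →
      ∀ z : Fin n → ℝ, (∀ x, 0 < z x) → ∀ e f : Fin n, e ≠ f →
        (∑ A : Finset (Fin n),
            if M.Spanning (A : Set (Fin n)) ∧ e ∈ A ∧ f ∈ A then ∏ x ∈ A, z x else 0) *
          (∑ A : Finset (Fin n), if M.Spanning (A : Set (Fin n)) then ∏ x ∈ A, z x else 0) ≤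
        (∑ A : Finset (Fin n), if M.Spanning (A : Set (Fin n)) ∧ e ∈ A then ∏ x ∈ A, z x else 0) *
          (∑ A : Finset (Fin n),
            if M.Spanning (A : Set (Fin n)) ∧ f ∈ A then ∏ x ∈ A, z x else 0) := by
  intro n M hr z hz e f hef
  have hz' : ∀ x, 0 ≤ z x := fun x => (hz x).le
  set U : Finset (Fin n) := (univ.erase e).erase f with hUdef
  have hU : ∀ x, x ∈ U ↔ x ≠ e ∧ x ≠ f := fun x => by simp [hUdef, and_comm]
  have heU : e ∉ U := fun h => ((hU e).1 h).1 rfl
  have hfU : f ∉ U := fun h => ((hU f).1 h).2 rfl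
  have huniv : (univ : Finset (Fin n)) = insert e (insert f U) := by
    ext x; simp only [mem_univ, mem_insert, hU, true_iff]; tauto
  have conv0 : ∀ (p : Finset (Fin n) → Prop) [DecidablePred p],
      (∑ A : Finset (Fin n), if p A then ∏ x ∈ A, z x else 0) =
        gs z U (fun X => rind (p X)) + z f * gs z U (fun X => rind (p (insert f X))) +
        z e * (gs z U (fun X => rind (p (insert e X))) +
          z f * gs z U (fun X => rind (p (insert e (insert f X))))) := by
    intro p _
    rw [← gs_insert z hfU (fun X => rind (p X)), ← gs_insert z hfU (fun X => rind (p (insert e X))),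
      ← gs_insert z (s := insert f U) (by simp [hef, heU]) (fun X => rind (p X)), ← huniv, gs,
      powerset_univ]
    refine sum_congr rfl fun A _ => ?_
    by_cases h : p A <;> simp [rind, h]
  have zero : ∀ g : Finset (Fin n) → Prop, (∀ X ⊆ U, ¬ g X) → gs z U (fun X => rind (g X)) = 0 :=
    fun g hg => sum_eq_zero fun X hX => by
      dsimp only
      rw [rind_neg (hg X (mem_powerset.1 hX)), zero_mul]
  rw [conv0, conv0, conv0, conv0]
  rw [zero (fun X => M.Spanning (X : Set (Fin n)) ∧ e ∈ X ∧ f ∈ X) (fun X hX h => heU (hX h.2.1)),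
    zero (fun X => M.Spanning ((insert f X : Finset (Fin n)) : Set (Fin n)) ∧ e ∈ insert f X ∧
      f ∈ insert f X) (fun X hX h => heU (hX ((mem_insert.1 h.2.1).resolve_left hef))),
    zero (fun X => M.Spanning ((insert e X : Finset (Fin n)) : Set (Fin n)) ∧ e ∈ insert e X ∧
      f ∈ insert e X) (fun X hX h => hfU (hX ((mem_insert.1 h.2.2).resolve_left hef.symm))),
    zero (fun X => M.Spanning (X : Set (Fin n)) ∧ e ∈ X) (fun X hX h => heU (hX h.2)),
    zero (fun X => M.Spanning ((insert f X : Finset (Fin n)) : Set (Fin n)) ∧ e ∈ insert f X)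
      (fun X hX h => heU (hX ((mem_insert.1 h.2).resolve_left hef))),
    zero (fun X => M.Spanning (X : Set (Fin n)) ∧ f ∈ X) (fun X hX h => hfU (hX h.2)),
    zero (fun X => M.Spanning ((insert e X : Finset (Fin n)) : Set (Fin n)) ∧ f ∈ insert e X)
      (fun X hX h => hfU (hX ((mem_insert.1 h.2).resolve_left hef.symm)))]
  simp only [mem_insert, true_or, or_true, and_true]
  have key := core M hr z hz' U hU
  unfold sI at key
  nlinarith [mul_le_mul_of_nonneg_left key (mul_pos (hz e) (hz f)).le]

end Pool.Agent.Results.MP_c72610_co.RankThreeSpanning
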